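import Mathlib
import Pool.Agent.X1.NfaCol

/-!
# Small automata and the columns of the multiply-by-3/2 automaton

Let `x` be a finite nonzero configuration and `j` a position.  For all `δ > 0` and `C ≥ 0` and all
large `N`: an automaton with at most `N^(1-δ)` states which accepts the word of the cells at the
position `j` of `x, F x, …, F^(N-1) x`, or a word which differs from it in at most `C log N`
places, accepts at least `exp (C (log N)^2)` words of length `N`.
-/

set_option autoImplicit false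

namespace Pool.Agent.Results.MP_cc0c1a_nt.AcceptedWordsOfColumns

open Finset

/-- the local rule `f(s,t) = (3s mod 6) + ⌊3t/6⌋` -/
def f (s t : Fin 6) : Fin 6 := ⟨(3 * (s : ℕ)) % 6 + (3 * (t : ℕ)) / 6, by omega⟩

/-- the automaton `F_{×3}` -/
def F3 (x : ℤ → Fin 6) : ℤ → Fin 6 := fun i => f (x i) (x (i + 1))

/-- the automaton `F = F_{×3} ∘ F_{×3} ∘ σ⁻¹` -/
def F (x : ℤ → Fin 6) : ℤ → Fin 6 := F3 (F3 fun i => x (i - 1))

/-- the number of words of length `N` accepted by the automaton `M` -/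
noncomputable def numAccepted {σ : Type} (M : NFA (Fin 6) σ) (N : ℕ) : ℕ :=
  {w : List (Fin 6) | w ∈ M.accepts ∧ w.length = N}.ncard

/-- Let `x` be a finite configuration with a nonzero cell, `j` a position, `δ > 0` and `C ≥ 0`.
There is `N₁` such that for all `N ≥ N₁` and all nondeterministic finite automata `M` with at most
`N^(1-δ)` states: if `M` accepts a word `d_0 … d_(N-1)` which differs in at most `C log N` places
from the word of the first `N` cells of the column `j` of the orbit of `x`, then it accepts at least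
`exp (C (log N)^2)` words of length `N`. -/
theorem result (x : ℤ → Fin 6) (hfin : {i | x i ≠ 0}.Finite) (hx : ∃ i, x i ≠ 0) (j : ℤ) (δ C : ℝ)
    (hδ : 0 < δ) (hC : 0 ≤ C) :
    ∃ N₁ : ℕ, ∀ (σ : Type) [Fintype σ] (M : NFA (Fin 6) σ) (N : ℕ), N₁ ≤ N →
      (Fintype.card σ : ℝ) ≤ (N : ℝ) ^ (1 - δ) → ∀ d : ℕ → Fin 6,
      (((range N).filter fun n => d n ≠ F^[n] x j).card : ℝ) ≤ C * Real.log N →
      (List.range N).map d ∈ M.accepts →
      Real.exp (C * Real.log N ^ 2) ≤ (numAccepted M N : ℝ) := by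
  obtain ⟨T, hT, h⟩ := Pool.Agent.X1.NfaAlg.aper_words hδ hC
  have hT2 : (2 : ℝ) ≤ T := by exact_mod_cast hT
  obtain ⟨N₀, hN₀⟩ := Pool.Agent.X1.NfaAlg.col_noPer x hfin hx j (1 / (T : ℝ)) (by positivity)
  obtain ⟨N₁, hN₁⟩ := h 5 N₀ (by norm_num)
  exact ⟨N₁, fun σ _ M N hN hq d hd hacc =>
    hN₁ (Fin 6) σ (fun n => F^[n] x j) hN₀ M N hN hq d hd hacc⟩

end Pool.Agent.Results.MP_cc0c1a_nt.AcceptedWordsOfColumns
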