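import Mathlib
import Pool.Agent.X1.NfaRow

/-!
# Small automata and the rows of the multiply-by-3/2 automaton

Let `x` be a finite nonzero configuration, `ε, δ > 0` and let `K` be given.  For all large `n` and
every window of `L ≥ ε n` consecutive cells of the row `F^n x` between two of its nonzero cells: a
nondeterministic finite automaton with at most `L^(1-δ)` states which accepts the word in the window,
or a word which differs from it in at most `K` cells, accepts at least `L ^ K` words of length `L`.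
-/

set_option autoImplicit false

namespace Pool.Agent.Results.MP_cc0c1a_nt.AcceptedWordsOfRows

open Finset

/-- the local rule `f(s,t) = (3s mod 6) + ⌊3t/6⌋` -/
def f (s t : Fin 6) : Fin 6 := ⟨(3 * (s : ℕ)) % 6 + (3 * (t : ℕ)) / 6, by omega⟩

/-- the automaton `F_{×3}` -/
def F3 (x : ℤ → Fin 6) : ℤ → Fin 6 := fun i => f (x i) (x (i + 1))

/-- the automaton `F = F_{×3} ∘ F_{×3} ∘ σ⁻¹` -/
def F (x : ℤ → Fin 6) : ℤ → Fin 6 := F3 (F3 fun i => x (i - 1))

/-- the number of words of length `L` accepted by the automaton `M` -/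
noncomputable def numAccepted {σ : Type} (M : NFA (Fin 6) σ) (L : ℕ) : ℕ :=
  {w : List (Fin 6) | w ∈ M.accepts ∧ w.length = L}.ncard

/-- Let `x` be a finite configuration with a nonzero cell, `ε, δ > 0` and `K` a natural number.
There is `n₀` such that for all `n ≥ n₀` and all windows `A, A + 1, …, A + L - 1` of `L ≥ ε n` cells
such that the row `F^n x` is nonzero at some cell `i ≤ A` and at some cell `j ≥ A + L - 1`: every
nondeterministic finite automaton with at most `L^(1-δ)` states which accepts a word `d` of length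
`L` differing in at most `K` places from the word which `F^n x` shows in the window accepts at least
`L ^ K` words of length `L`. -/
theorem result (x : ℤ → Fin 6) (hfin : {i | x i ≠ 0}.Finite) (hx : ∃ i, x i ≠ 0) (ε δ : ℝ)
    (hε : 0 < ε) (hδ : 0 < δ) (K : ℕ) : ∃ n₀ : ℕ, ∀ n L : ℕ, ∀ A : ℤ, n₀ ≤ n → ε * n ≤ L →
      (∃ i ≤ A, F^[n] x i ≠ 0) → (∃ j, A + L - 1 ≤ j ∧ F^[n] x j ≠ 0) →
      ∀ (σ : Type) [Fintype σ] (M : NFA (Fin 6) σ), (Fintype.card σ : ℝ) ≤ (L : ℝ) ^ (1 - δ) →
      ∀ d : ℕ → Fin 6, ((range L).filter fun i => d i ≠ F^[n] x (A + i)).card ≤ K →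
      (List.range L).map d ∈ M.accepts → L ^ K ≤ numAccepted M L := by
  obtain ⟨n₀, h⟩ := Pool.Agent.X1.NfaAlg.row_words x hfin hx hε hδ K
  refine ⟨n₀, fun n L A hn hL h1 h2 σ _ M hM d hd hacc => ?_⟩
  obtain ⟨j, hj1, hj2⟩ := h2
  obtain ⟨W, hW1, hW2⟩ := h n L A hn hL h1 ⟨j, by omega, hj2⟩ σ M hM d hd hacc
  exact hW2.trans (Pool.Agent.X1.NfaAlg.naccG_ge M L W hW1)

end Pool.Agent.Results.MP_cc0c1a_nt.AcceptedWordsOfRows
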