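import Mathlib
import Pool.Agent.X1.NfaCol

/-!
# The automatic complexity of the columns of the multiply-by-3/2 automaton

Let `x` be a finite nonzero configuration and `j` a position.  For every `ε > 0` and all large `N`
every nondeterministic automaton which accepts the word of the cells at the position `j` of
`x, F x, …, F^(N-1) x`, and no other word of length `N`, has at least `N exp (-ε √(log N))` states.
-/

set_option autoImplicit false

namespace Pool.Agent.Results.MP_cc0c1a_nt.AutomaticComplexityOfColumns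

/-- the local rule `f(s,t) = (3s mod 6) + ⌊3t/6⌋` -/
def f (s t : Fin 6) : Fin 6 := ⟨(3 * (s : ℕ)) % 6 + (3 * (t : ℕ)) / 6, by omega⟩

/-- the automaton `F_{×3}` -/
def F3 (x : ℤ → Fin 6) : ℤ → Fin 6 := fun i => f (x i) (x (i + 1))

/-- the automaton `F = F_{×3} ∘ F_{×3} ∘ σ⁻¹` -/
def F (x : ℤ → Fin 6) : ℤ → Fin 6 := F3 (F3 fun i => x (i - 1))

/-- the word formed by the cells at the position `j` in the first `N` configurations
`x, F x, …, F^(N-1) x` of the orbit -/
def columnWord (x : ℤ → Fin 6) (j : ℤ) (N : ℕ) : List (Fin 6) :=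
  (List.range N).map fun n => F^[n] x j

/-- Let `x` be a finite configuration with a nonzero cell, `j` a position and `ε > 0`.  There is
`N₁` such that for all `N ≥ N₁` every nondeterministic finite automaton which accepts the word of
the first `N` cells of the column `j` of the orbit of `x` and no other word of length `N` has at
least `N exp (-ε √(log N))` states. -/
theorem result (x : ℤ → Fin 6) (hfin : {i | x i ≠ 0}.Finite) (hx : ∃ i, x i ≠ 0) (j : ℤ) (ε : ℝ)
    (hε : 0 < ε) : ∃ N₁ : ℕ, ∀ (σ : Type) [Fintype σ] (M : NFA (Fin 6) σ) (N : ℕ), N₁ ≤ N →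
      columnWord x j N ∈ M.accepts →
      (∀ w ∈ M.accepts, w.length = N → w = columnWord x j N) →
      (N : ℝ) * Real.exp (-(ε * √(Real.log N))) ≤ Fintype.card σ := by
  obtain ⟨T, hT, h⟩ := Pool.Agent.X1.NfaAlg.aper_states hε
  have hT2 : (2 : ℝ) ≤ T := by exact_mod_cast hT
  obtain ⟨N₀, hN₀⟩ := Pool.Agent.X1.NfaAlg.col_noPer x hfin hx j (1 / (T : ℝ)) (by positivity)
  obtain ⟨N₁, hN₁⟩ := h 5 N₀ (by norm_num)
  exact ⟨N₁, fun σ _ M N hN hacc huniq => hN₁ (Fin 6) σ _ hN₀ M N hN hacc huniq⟩

end Pool.Agent.Results.MP_cc0c1a_nt.AutomaticComplexityOfColumns
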