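import Mathlib
import Pool.Agent.X2.AdicMixed
import Pool.Agent.H429R2.Auto

/-!
# The `6`-adic complexity of the words in the rows of the automaton

No hypothesis is assumed.  Let `x` be a finite nonzero configuration.  The words of `m` consecutive cells of the
row `F^n x` are read from the right to the left.  The `6`-adic complexity of a word `w₀ w₁ … w_(m-1)` is the
logarithm to the base `6` of the smallest size of a rational number `f / g`, with `g` prime to `6`, whose `6`-adic
expansion begins with this word (the size of the smallest feedback shift register with carry which produces it).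

The theorem determines this complexity, up to `ε n + C`, for ALL words inside the support of the row: if the word
stands at the cells `p, …, p + m - 1` it is `max (m / 2, m log₆ 3 - (n - p - m) log₆ 2)`.  So it is `m / 2`, the
value for a random word, except for the words which begin close to the right end of the row (`n - p - m` is, up to
a constant, the distance from this end), for which it is larger.
-/

set_option autoImplicit false

namespace Pool.Agent.Results.MP_cc0c1a_nt.RowAdicComplexity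

open Finset

/-- the local rule `f(s, t) = (3 s mod 6) + ⌊3 t / 6⌋` -/
def f (s t : Fin 6) : Fin 6 := ⟨(3 * (s : ℕ)) % 6 + (3 * (t : ℕ)) / 6, by omega⟩

/-- the automaton `F_{× 3}` -/
def mul3 (x : ℤ → Fin 6) : ℤ → Fin 6 := fun i => f (x i) (x (i + 1))

/-- the automaton `F = F_{× 3} ∘ F_{× 3} ∘ σ⁻¹` -/
def F (x : ℤ → Fin 6) : ℤ → Fin 6 := mul3 (mul3 (fun i => x (i - 1)))

/-- the least `M` such that the `b`-adic expansion of some rational number `f / g`, with `g > 0` prime
to `b` and `|f| ≤ M`, `g ≤ M`, begins with the letters `c 0, c 1, …, c (n - 1)`, that is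
`f / g ≡ ∑_{i < n} c i b ^ i` modulo `b ^ n` -/
noncomputable def size (b n : ℕ) (c : ℕ → ℤ) : ℕ :=
  sInf {M : ℕ | ∃ f g : ℤ, 0 < g ∧ Int.gcd g b = 1 ∧
    (b : ℤ) ^ n ∣ g * (∑ i ∈ range n, c i * (b : ℤ) ^ i) - f ∧ |f| ≤ M ∧ g ≤ M}

/-- the `6`-adic complexity of the word of the cells `p, …, p + m - 1` of `y`, read from the right to the left -/
noncomputable def complexity (y : ℤ → Fin 6) (p : ℤ) (m : ℕ) : ℝ :=
  Real.logb 6 (size 6 m (fun j => (((y (p + m - 1 - j) : Fin 6) : ℕ) : ℤ)))

/-- the cells of a row as digits of `A0 9 ^ n` -/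
theorem cell {x : ℤ → Fin 6} {A0 k : ℕ} (hx : Pool.Agent.H429R2.Auto.Rep x ((A0 : ℝ) / 6 ^ k)) (n u : ℕ) (i : ℤ)
    (hi : i + u = n + k) : ((F^[n] x i : Fin 6) : ℕ) = A0 * 3 ^ (2 * n) / 6 ^ u % 6 := by
  have hF : F = Pool.Agent.H429R2.Auto.F := rfl
  rw [hF]
  have hβ : (0 : ℝ) ≤ (A0 : ℝ) / 6 ^ k := by positivity
  rw [Pool.Agent.H429R2.Auto.rep_iter hβ hx n i]
  have e3 : (6 : ℝ) ^ i * ((3 / 2) ^ n * (A0 / 6 ^ k)) =
      ((A0 * 3 ^ (2 * n) : ℕ) : ℝ) / ((6 ^ u : ℕ) : ℝ) := by
    rw [show i = ((n + k : ℕ) : ℤ) - (u : ℕ) by push_cast; omega,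
      zpow_sub₀ (by norm_num), zpow_natCast, zpow_natCast]
    push_cast
    have h9 : (3 : ℝ) ^ (2 * n) = 6 ^ n * (3 / 2) ^ n := by rw [pow_mul, ← mul_pow]; norm_num
    rw [h9, pow_add]
    field_simp
  rw [e3, Nat.floor_div_eq_div]

/-- **The `6`-adic complexity of all words in the rows of the automaton.**  Let `x` be a finite nonzero
configuration and `ε > 0`.  There is `C` such that for all times `n` and all words of the `m` cells `p, …, p + m - 1`
of the row `F^n x`, where `p + m - 1 ≤ n` and the row has a nonzero cell to the left of `p`, the complexity of the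
word differs from `max (m / 2, m log₆ 3 - (n - p - m) log₆ 2)` by at most `ε n + C`. -/
theorem result (x : ℤ → Fin 6) (hfin : {i | x i ≠ 0}.Finite) (hx : ∃ i, x i ≠ 0) (ε : ℝ) (hε : 0 < ε) :
    ∃ C : ℝ, ∀ (n m : ℕ) (p : ℤ), p + m - 1 ≤ n → (∃ i : ℤ, i < p ∧ F^[n] x i ≠ 0) →
      |complexity (F^[n] x) p m -
        max ((m : ℝ) / 2) (m * Real.logb 6 3 - (n - p - m) * Real.logb 6 2)| ≤ ε * n + C := by
  obtain ⟨A0, k, hrep, hA0, -⟩ := Pool.Agent.H429R2.Auto.exists_rep (x := x) hfin
  have hA0 : 0 < A0 := hA0 (by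
    rintro rfl
    obtain ⟨i, hi⟩ := hx
    exact hi rfl)
  obtain ⟨C, hC⟩ := Pool.Agent.X2.AdicMixed.mixed' (a := 2) (c := 3) (by norm_num) (by norm_num)
    (by norm_num) A0 hA0 (ε / 2) (by positivity)
  refine ⟨C + (k + 1), ?_⟩
  intro n m p hp hleft
  obtain ⟨t, ht⟩ : ∃ t : ℕ, p + m - 1 + t = n + k := ⟨(n + k - (p + m - 1)).toNat, by omega⟩
  have hpow : (2 * 3) ^ (t + m) ≤ A0 * 3 ^ (2 * n) := by
    obtain ⟨i, hi1, hi2⟩ := hleft
    obtain ⟨u, hu⟩ : ∃ u : ℕ, i + u = n + k := ⟨(n + k - i).toNat, by omega⟩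
    have h1 := cell hrep n u i hu
    have h2 : 6 ^ u ≤ A0 * 3 ^ (2 * n) := by
      by_contra hcon
      rw [Nat.div_eq_of_lt (by omega), Nat.zero_mod] at h1
      exact hi2 (Fin.ext h1)
    refine le_trans (Nat.pow_le_pow_right (by norm_num) ?_) h2
    omega
  have hmain := hC (2 * n) t m hpow
  have hcomp : complexity (F^[n] x) p m = Pool.Agent.X2.AdicDigits.adicComplexity (2 * 3) m
      (Pool.Agent.X2.AdicPowers.window (2 * 3) (A0 * 3 ^ (2 * n)) t) := by
    have h1 : size 6 m (fun j => (((F^[n] x (p + m - 1 - j) : Fin 6) : ℕ) : ℤ)) =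
        Pool.Agent.X2.AdicDigits.size (2 * 3) m
          (Pool.Agent.X2.AdicPowers.window (2 * 3) (A0 * 3 ^ (2 * n)) t) := by
      apply Pool.Agent.X2.AdicMixed.size_congr (b := 6)
      intro j hj
      unfold Pool.Agent.X2.AdicPowers.window Pool.Agent.X2.AdicPowers.digit
      rw [cell hrep n (t + j) (p + m - 1 - j) (by push_cast; omega)]
    unfold complexity Pool.Agent.X2.AdicDigits.adicComplexity
    rw [h1]
    norm_num
  rw [hcomp]
  have htR : (t : ℝ) = (n - p - m) + (k + 1) := by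
    have : (t : ℤ) = n - p - m + (k + 1) := by omega
    exact_mod_cast this
  have h23 : ((2 : ℕ) : ℝ) * ((3 : ℕ) : ℝ) = 6 := by norm_num
  rw [h23] at hmain
  have hl2 : 0 ≤ Real.logb 6 2 := Real.logb_nonneg (by norm_num) (by norm_num)
  have hl2' : Real.logb 6 2 ≤ 1 := by
    rw [Real.logb_le_iff_le_rpow (by norm_num) (by norm_num), Real.rpow_one]
    norm_num
  push_cast at hmain
  have hk0 : (0 : ℝ) ≤ (k : ℝ) + 1 := by positivity
  have hd : |max ((m : ℝ) / 2) (m * Real.logb 6 3 - t * Real.logb 6 2) -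
      max ((m : ℝ) / 2) (m * Real.logb 6 3 - (n - p - m) * Real.logb 6 2)| ≤ k + 1 := by
    refine (abs_max_sub_max_le_max _ _ _ _).trans ?_
    rw [sub_self, abs_zero]
    apply max_le hk0
    have h1 : m * Real.logb 6 3 - t * Real.logb 6 2 -
        (m * Real.logb 6 3 - (n - p - m) * Real.logb 6 2) = -((k + 1) * Real.logb 6 2) := by
      rw [htR]; ring
    rw [h1, abs_neg, abs_of_nonneg (by positivity)]
    have := mul_le_mul_of_nonneg_left hl2' hk0
    linarith
  have htri := abs_sub_le (Pool.Agent.X2.AdicDigits.adicComplexity (2 * 3) m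
      (Pool.Agent.X2.AdicPowers.window (2 * 3) (A0 * 3 ^ (2 * n)) t))
    (max ((m : ℝ) / 2) (m * Real.logb 6 3 - t * Real.logb 6 2))
    (max ((m : ℝ) / 2) (m * Real.logb 6 3 - (n - p - m) * Real.logb 6 2))
  linarith

end Pool.Agent.Results.MP_cc0c1a_nt.RowAdicComplexity
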